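import Pool.Agent.H460Z.UnLow
import Pool.Agent.H460Z.UnUp

namespace Pool.Agent.Results.MP_dbb15e_gt.AProduct

open H460Z.UnDefs

universe u

/-- The Euclidean distortion of a union of two spaces of Euclidean distortions `DA` and `DB` is
of the exact order `DA * DB`. -/
theorem result (DA DB : ℝ) (hA : 1 ≤ DA) (hB : 1 ≤ DB) :
    UnionProp.{u} DA DB (7 * (DA * DB)) ∧
      (∀ D : ℝ, UnionProp.{u} DA DB D → DA * DB / 120 ≤ D) ∧
      DA * DB / 120 ≤ calD.{u} DA DB ∧ calD.{u} DA DB ≤ 7 * (DA * DB) :=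
  ⟨H460Z.Un.upper hA hB, fun _ h => H460Z.Un.lower hA hB h,
    le_csInf ⟨_, H460Z.Un.upper hA hB⟩ fun _ h => H460Z.Un.lower hA hB h,
    csInf_le ⟨_, fun _ h => H460Z.Un.lower hA hB h⟩ (H460Z.Un.upper hA hB)⟩

end Pool.Agent.Results.MP_dbb15e_gt.AProduct
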